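import Pool.Agent.T9h21.DP.Spec

/-!
# (6) Bounded differences of `G`
-/

set_option autoImplicit false

namespace Pool.Agent.T9h41.DP

open Finset Pool.Agent.T9h21.DP

variable {m : ℕ}

lemma count (e : Fin (m + 1) → Fin (m + 1)) (he : Function.Injective e) (s : ℕ) :
    (univ.filter fun l => ((e l : Fin (m + 1)) : ℕ) < s).card ≤ s := by
  have h : (univ.filter fun l => ((e l : Fin (m + 1)) : ℕ) < s).card ≤ (range s).card := by
    refine Finset.card_le_card_of_injOn (fun l => ((e l : Fin (m + 1)) : ℕ)) ?_ ?_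
    · intro l hl
      exact Finset.mem_coe.2 (Finset.mem_range.2 (Finset.mem_filter.1 (Finset.mem_coe.1 hl)).2)
    · intro l _ l' _ h
      exact he (Fin.ext h)
  rwa [card_range] at h

/-- sums of functions which differ at few places -/
lemma sum_diff (f g : Fin (m + 1) → ℝ) (A : Finset (Fin (m + 1))) (b : ℝ) (n : ℕ) (hb : 0 ≤ b)
    (hA : A.card ≤ n) (h1 : ∀ l, l ∉ A → f l = g l) (h2 : ∀ l, |f l - g l| ≤ b) :
    |∑ l, f l - ∑ l, g l| ≤ n * b := by
  rw [← Finset.sum_sub_distrib]
  have h3 : ∑ l, (f l - g l) = ∑ l ∈ A, (f l - g l) := by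
    symm
    refine Finset.sum_subset (Finset.subset_univ _) fun l _ hl => ?_
    rw [h1 l hl, sub_self]
  rw [h3]
  refine (Finset.abs_sum_le_sum_abs _ _).trans ?_
  refine (Finset.sum_le_card_nsmul A _ b fun l _ => h2 l).trans ?_
  rw [nsmul_eq_mul]
  exact mul_le_mul_of_nonneg_right (by exact_mod_cast hA) hb

lemma ind_range (D : Finset (Cut m)) (X : Cfg m) (I : Finset (Fin (m + 1))) :
    0 ≤ ind D X I ∧ ind D X I ≤ 1 := by
  unfold ind
  split_ifs <;> norm_num

lemma N_range (L : ℕ) (D : Finset (Cut m)) (X : Cfg m) (I : ℕ → Finset (Fin (m + 1))) :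
    0 ≤ ∑ i ∈ range L, ind D X (I i) ∧ ∑ i ∈ range L, ind D X (I i) ≤ L := by
  refine ⟨Finset.sum_nonneg fun i _ => (ind_range D X _).1, ?_⟩
  refine (Finset.sum_le_card_nsmul (range L) _ 1 fun i _ => (ind_range D X _).2).trans ?_
  rw [card_range, nsmul_eq_mul, mul_one]

lemma con_upd (X : Cfg m) (v a : Fin (m + 1)) (I : Finset (Fin (m + 1))) (h1 : X v ∉ I)
    (h2 : a ∉ I) : con (Function.update X v a) I = con X I := by
  funext u
  unfold con
  by_cases hu : u = v
  · subst hu
    rw [Function.update_self]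
    simp [h1, h2]
  · rw [Function.update_of_ne hu]

/-- **(6)** -/
theorem bd (m : ℕ) : S_bd m := by
  intro L R D X v a hL hR hm
  obtain ⟨s, hs⟩ : ∃ s, s = R ^ L := ⟨_, rfl⟩
  have hpow : ∀ i ∈ range L, R ^ (i + 1) ≤ s := by
    intro i hi
    rw [hs]
    exact Nat.pow_le_pow_right hR (Finset.mem_range.1 hi)
  have hLr : (1 : ℝ) ≤ L := by exact_mod_cast hL
  have hL0 : (0 : ℝ) ≤ L := by linarith
  have hsr : (0 : ℝ) ≤ s := Nat.cast_nonneg _
  -- the places of change
  obtain ⟨A, hA⟩ : ∃ A : Finset (Fin (m + 1)), A = (univ.filter fun l => ((X v - l : Fin (m + 1)) : ℕ) < s) ∪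
      (univ.filter fun l => ((a - l : Fin (m + 1)) : ℕ) < s) := ⟨_, rfl⟩
  obtain ⟨A', hA'⟩ : ∃ A' : Finset (Fin (m + 1)), A' =
      (univ.filter fun r => ((r - 1 - X v : Fin (m + 1)) : ℕ) < s) ∪
      (univ.filter fun r => ((r - 1 - a : Fin (m + 1)) : ℕ) < s) := ⟨_, rfl⟩
  have hAc : A.card ≤ 2 * s := by
    rw [hA]
    refine (Finset.card_union_le _ _).trans ?_
    have h1 := count (fun l => X v - l) (fun x y h => sub_right_injective h) s
    have h2 := count (fun l => a - l) (fun x y h => sub_right_injective h) s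
    omega
  have hAc' : A'.card ≤ 2 * s := by
    rw [hA']
    refine (Finset.card_union_le _ _).trans ?_
    have h1 := count (fun r => r - 1 - X v)
      (fun x y h => sub_left_injective (sub_left_injective h)) s
    have h2 := count (fun r => r - 1 - a)
      (fun x y h => sub_left_injective (sub_left_injective h)) s
    omega
  have hNl : ∀ l, l ∉ A → Nl L R D (Function.update X v a) l = Nl L R D X l := by
    intro l hl
    rw [hA, Finset.mem_union, Finset.mem_filter, Finset.mem_filter] at hl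
    push Not at hl
    unfold Nl
    refine Finset.sum_congr rfl fun i hi => ?_
    unfold ind
    rw [con_upd]
    · intro h
      exact absurd ((Finset.mem_filter.1 h).2.trans_le (hpow i hi)) (Nat.not_lt.2 (hl.1 (Finset.mem_univ _)))
    · intro h
      exact absurd ((Finset.mem_filter.1 h).2.trans_le (hpow i hi)) (Nat.not_lt.2 (hl.2 (Finset.mem_univ _)))
  have hNr : ∀ r, r ∉ A' → Nr L R D (Function.update X v a) r = Nr L R D X r := by
    intro l hl
    rw [hA', Finset.mem_union, Finset.mem_filter, Finset.mem_filter] at hl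
    push Not at hl
    unfold Nr
    refine Finset.sum_congr rfl fun i hi => ?_
    unfold ind
    rw [con_upd]
    · intro h
      exact absurd ((Finset.mem_filter.1 h).2.trans_le (hpow i hi)) (Nat.not_lt.2 (hl.1 (Finset.mem_univ _)))
    · intro h
      exact absurd ((Finset.mem_filter.1 h).2.trans_le (hpow i hi)) (Nat.not_lt.2 (hl.2 (Finset.mem_univ _)))
  have hrl : ∀ (Y : Cfg m) (l : Fin (m + 1)), 0 ≤ Nl L R D Y l ∧ Nl L R D Y l ≤ L := fun Y l =>
    N_range L D Y fun i => arcL l (R ^ (i + 1))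
  have hrr : ∀ (Y : Cfg m) (l : Fin (m + 1)), 0 ≤ Nr L R D Y l ∧ Nr L R D Y l ≤ L := fun Y l =>
    N_range L D Y fun i => arcR l (R ^ (i + 1))
  have e1 := sum_diff (fun l => Nl L R D (Function.update X v a) l) (fun l => Nl L R D X l) A L
    (2 * s) hL0 hAc hNl (fun l => by
      have h1 := hrl (Function.update X v a) l
      have h2 := hrl X l
      rw [abs_le]
      constructor <;> linarith [h1.1, h1.2, h2.1, h2.2])
  have e2 := sum_diff (fun l => Nl L R D (Function.update X v a) l ^ 2)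
    (fun l => Nl L R D X l ^ 2) A (L ^ 2) (2 * s) (by positivity) hAc
    (fun l hl => by simp only [hNl l hl]) (fun l => by
      have h1 := hrl (Function.update X v a) l
      have h2 := hrl X l
      have h3 : Nl L R D (Function.update X v a) l ^ 2 ≤ (L : ℝ) ^ 2 :=
        pow_le_pow_left₀ h1.1 h1.2 2
      have h4 : Nl L R D X l ^ 2 ≤ (L : ℝ) ^ 2 := pow_le_pow_left₀ h2.1 h2.2 2
      have h5 : 0 ≤ Nl L R D (Function.update X v a) l ^ 2 := sq_nonneg _
      have h6 : 0 ≤ Nl L R D X l ^ 2 := sq_nonneg _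
      rw [abs_le]
      constructor <;> linarith)
  have e3 := sum_diff (fun l => Nr L R D (Function.update X v a) l ^ 2)
    (fun l => Nr L R D X l ^ 2) A' (L ^ 2) (2 * s) (by positivity) hAc'
    (fun l hl => by simp only [hNr l hl]) (fun l => by
      have h1 := hrr (Function.update X v a) l
      have h2 := hrr X l
      have h3 : Nr L R D (Function.update X v a) l ^ 2 ≤ (L : ℝ) ^ 2 :=
        pow_le_pow_left₀ h1.1 h1.2 2
      have h4 : Nr L R D X l ^ 2 ≤ (L : ℝ) ^ 2 := pow_le_pow_left₀ h2.1 h2.2 2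
      have h5 : 0 ≤ Nr L R D (Function.update X v a) l ^ 2 := sq_nonneg _
      have h6 : 0 ≤ Nr L R D X l ^ 2 := sq_nonneg _
      rw [abs_le]
      constructor <;> linarith)
  have hsL : ((s : ℕ) : ℝ) = (R : ℝ) ^ L := by
    rw [hs]
    push_cast
    rfl
  rw [← hsL]
  have hLL : (L : ℝ) ≤ (L : ℝ) ^ 2 := by nlinarith
  have hsLL : (s : ℝ) * L ≤ s * (L : ℝ) ^ 2 := mul_le_mul_of_nonneg_left hLL hsr
  have hsL2 : 0 ≤ (s : ℝ) * (L : ℝ) ^ 2 := by positivity
  unfold G
  rw [Finset.sum_add_distrib, Finset.sum_add_distrib]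
  push_cast at e1 e2 e3
  rw [abs_le] at e1 e2 e3 ⊢
  constructor <;> nlinarith [e1.1, e1.2, e2.1, e2.2, e3.1, e3.2]

end Pool.Agent.T9h41.DP
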