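import Pool.Agent.T9h21.DP.Spec

/-!
# (12) The mean and the tail of `G`
-/

set_option autoImplicit false

namespace Pool.Agent.T9h41.DP

open Finset Pool.Agent.T9h21.DP

variable {m : ℕ}

lemma avg_add (F H : Cfg m → ℝ) : avg (fun X => F X + H X) = avg F + avg H := by
  unfold avg
  rw [Finset.sum_add_distrib, add_div]

lemma avg_sub (F H : Cfg m → ℝ) : avg (fun X => F X - H X) = avg F - avg H := by
  unfold avg
  rw [Finset.sum_sub_distrib, sub_div]

lemma avg_mul (c : ℝ) (F : Cfg m → ℝ) : avg (fun X => c * F X) = c * avg F := by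
  unfold avg
  rw [← Finset.mul_sum, mul_div_assoc]

lemma avg_sum {ι : Type} (s : Finset ι) (F : ι → Cfg m → ℝ) :
    avg (fun X => ∑ i ∈ s, F i X) = ∑ i ∈ s, avg (F i) := by
  unfold avg
  rw [Finset.sum_comm, Finset.sum_div]

lemma card_arcL (l : Fin (m + 1)) (s : ℕ) : (arcL l s).card = (arcL (0 : Fin (m + 1)) s).card := by
  unfold arcL
  refine Finset.card_equiv (Equiv.subRight l) fun t => ?_
  simp

lemma ind_sq (D : Finset (Cut m)) (X : Cfg m) (I : Finset (Fin (m + 1))) :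
    ind D X I * ind D X I = ind D X I := by
  unfold ind
  split_ifs <;> simp

lemma avg_Nl (hsym : S_sym m) (L R : ℕ) (D : Finset (Cut m)) (l : Fin (m + 1)) :
    avg (fun X => Nl L R D X l) = Phi L R D := by
  unfold Nl Phi
  rw [avg_sum]
  refine Finset.sum_congr rfl fun i _ => ?_
  have h := hsym D (arcL l (R ^ (i + 1))) (arcL l (R ^ (i + 1))) (arcL 0 (R ^ (i + 1)))
    (arcL 0 (R ^ (i + 1))) (Finset.Subset.refl _) (Finset.Subset.refl _) (card_arcL l _)
    (card_arcL l _)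
  simp only [ind_sq] at h
  exact h

/-- **(12)** the mean -/
theorem eG (m : ℕ) : S_sym m → S_mom m → S_EG m := by
  intro hsym hmom L R D hL hR hm h1 h2
  have hG : avg (G L R D) = ∑ l : Fin (m + 1), avg (fun X => Nl L R D X l) -
      (1 / 28) * ∑ l : Fin (m + 1), (avg (fun X => Nl L R D X l ^ 2) +
        avg (fun X => Nr L R D X l ^ 2)) := by
    have e : G L R D = fun X => ∑ l, Nl L R D X l -
        (1 / 28) * ∑ l, (Nl L R D X l ^ 2 + Nr L R D X l ^ 2) := rfl
    rw [e, avg_sub, avg_mul, avg_sum, avg_sum]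
    congr 2
    exact Finset.sum_congr rfl fun l _ => avg_add _ _
  rw [hG]
  have ha : ((m : ℝ) + 1) ≤ ∑ l : Fin (m + 1), avg (fun X => Nl L R D X l) := by
    have : ∑ l : Fin (m + 1), avg (fun X => Nl L R D X l) = ((m : ℝ) + 1) * Phi L R D := by
      rw [Finset.sum_congr rfl fun l _ => avg_Nl hsym L R D l, Finset.sum_const, Finset.card_univ,
        Fintype.card_fin, nsmul_eq_mul]
      push_cast
      ring
    rw [this]
    exact le_mul_of_one_le_right (by positivity) h1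
  have hb : ∑ l : Fin (m + 1), (avg (fun X => Nl L R D X l ^ 2) +
        avg (fun X => Nr L R D X l ^ 2)) ≤ ((m : ℝ) + 1) * 14 := by
    have : ∑ l : Fin (m + 1), (avg (fun X => Nl L R D X l ^ 2) +
        avg (fun X => Nr L R D X l ^ 2)) ≤ ∑ _l : Fin (m + 1), (14 : ℝ) := by
      refine Finset.sum_le_sum fun l _ => ?_
      obtain ⟨h3, h4⟩ := hmom L R D l hL hR hm h2
      linarith
    refine this.trans (le_of_eq ?_)
    rw [Finset.sum_const, Finset.card_univ, Fintype.card_fin, nsmul_eq_mul]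
    push_cast
    ring
  linarith

/-- **(12)** the tail -/
theorem tail (m : ℕ) : S_EG m → S_bd m → S_mcd m → S_tail m := by
  intro hEG hbd hmcd L R D hL hR hm h1 h2
  have hL1 : 1 ≤ L ^ 4 := Nat.one_le_pow _ _ hL
  have hR1 : 1 ≤ R := by omega
  have hRL : 1 ≤ R ^ L := Nat.one_le_pow _ _ hR1
  have hRLm : R ^ L ≤ m := by
    have h3 : R ^ L * 4 ≤ 4 * L ^ 4 * (R ^ L) ^ 2 := by
      calc R ^ L * 4 = 4 * 1 * (R ^ L * 1) := by ring
        _ ≤ 4 * L ^ 4 * (R ^ L * R ^ L) :=
            Nat.mul_le_mul (Nat.mul_le_mul_left _ hL1) (Nat.mul_le_mul_left _ hRL)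
        _ = 4 * L ^ 4 * (R ^ L) ^ 2 := by ring
    omega
  have hB : (0 : ℝ) < 3 * R ^ L * L ^ 2 := by
    have hRr : (0 : ℝ) < R := by exact_mod_cast hR1
    have hLr : (0 : ℝ) < L := by exact_mod_cast hL
    positivity
  have ht : (0 : ℝ) < ((m : ℝ) + 1) / 4 := by positivity
  have h3 := hmcd (G L R D) (3 * R ^ L * L ^ 2) (((m : ℝ) + 1) / 4) hB ht
    fun X v a => hbd L R D X v a hL hR1 hRLm
  have h4 : ((m : ℝ) + 1) / 4 ≤ avg (G L R D) - ((m : ℝ) + 1) / 4 := by
    have := hEG L R D hL hR hm h1 h2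
    linarith
  have h5 : (univ.filter fun X => G L R D X ≤ ((m : ℝ) + 1) / 4) ⊆
      univ.filter fun X => G L R D X ≤ avg (G L R D) - ((m : ℝ) + 1) / 4 := by
    intro X hX
    exact Finset.mem_filter.2 ⟨Finset.mem_univ _, (Finset.mem_filter.1 hX).2.trans h4⟩
  refine (Nat.cast_le.2 (Finset.card_le_card h5)).trans (h3.trans (le_of_eq ?_))
  congr 2
  have hRr : (0 : ℝ) < R := by exact_mod_cast hR1
  have hLr : (0 : ℝ) < L := by exact_mod_cast hL
  field_simp
  ring

end Pool.Agent.T9h41.DP
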