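import Pool.Agent.T9h21.DP.Spec4
import Pool.Agent.T9h41.DP.Tail

/-!
# (v4) The tail of `G`, for `Phi < 4`
-/

set_option autoImplicit false

namespace Pool.Agent.T9h41.DP

open Finset Pool.Agent.T9h21.DP

/-- the mean, for `Phi < 4` -/
theorem eG4 {m : ℕ} (hsym : S_sym m) (hmom : S_mom2 m) (L R : ℕ) (D : Finset (Cut m))
    (hL : 1 ≤ L) (hR : 4 ≤ R) (hm : 4 * L ^ 4 * (R ^ L) ^ 2 ≤ m + 1) (h1 : 1 ≤ Phi L R D)
    (h2 : Phi L R D < 4) : ((m : ℝ) + 1) / 2 ≤ avg (G L R D) := by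
  have hG : avg (G L R D) = ∑ l : Fin (m + 1), avg (fun X => Nl L R D X l) -
      (1 / 28) * ∑ l : Fin (m + 1), (avg (fun X => Nl L R D X l ^ 2) +
        avg (fun X => Nr L R D X l ^ 2)) := by
    have e : G L R D = fun X => ∑ l, Nl L R D X l -
        (1 / 28) * ∑ l, (Nl L R D X l ^ 2 + Nr L R D X l ^ 2) := rfl
    rw [e, avg_sub, avg_mul, avg_sum, avg_sum]
    congr 2
    exact Finset.sum_congr rfl fun l _ => avg_add _ _
  rw [hG]
  obtain ⟨θ, hθ⟩ : ∃ θ : ℝ, θ = Phi L R D := ⟨_, rfl⟩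
  have ha : ∑ l : Fin (m + 1), avg (fun X => Nl L R D X l) = ((m : ℝ) + 1) * θ := by
    rw [Finset.sum_congr rfl fun l _ => avg_Nl hsym L R D l, Finset.sum_const, Finset.card_univ,
      Fintype.card_fin, nsmul_eq_mul, hθ]
    push_cast
    ring
  have hb : ∑ l : Fin (m + 1), (avg (fun X => Nl L R D X l ^ 2) +
        avg (fun X => Nr L R D X l ^ 2)) ≤ ((m : ℝ) + 1) * (2 * (3 * θ + θ ^ 2 + 1)) := by
    have : ∑ l : Fin (m + 1), (avg (fun X => Nl L R D X l ^ 2) +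
        avg (fun X => Nr L R D X l ^ 2)) ≤ ∑ _l : Fin (m + 1), (2 * (3 * θ + θ ^ 2 + 1)) := by
      refine Finset.sum_le_sum fun l _ => ?_
      obtain ⟨h3, h4⟩ := hmom L R D l hL hR hm
      rw [← hθ] at h3 h4
      linarith
    refine this.trans (le_of_eq ?_)
    rw [Finset.sum_const, Finset.card_univ, Fintype.card_fin, nsmul_eq_mul]
    push_cast
    ring
  rw [← hθ] at h1 h2
  rw [ha]
  have hm0 : (0 : ℝ) < (m : ℝ) + 1 := by positivity
  have hq : 1 / 2 ≤ θ - (1 / 28) * (2 * (3 * θ + θ ^ 2 + 1)) := by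
    nlinarith [mul_nonneg (sub_nonneg.2 h1) (sub_nonneg.2 h2.le)]
  have := mul_le_mul_of_nonneg_left hq hm0.le
  linarith

/-- **(v4)** -/
theorem vTail (m : ℕ) : S_sym m → S_mom2 m → S_bd m → S_mcd m → V_tail m := by
  intro hsym hmom hbd hmcd L R D hL hR hm h1 h2
  have hL1 : 1 ≤ L ^ 4 := Nat.one_le_pow _ _ hL
  have hR1 : 1 ≤ R := by omega
  have hRL : 1 ≤ R ^ L := Nat.one_le_pow _ _ hR1
  have hRLm : R ^ L ≤ m := by
    have h3 : R ^ L * 4 ≤ 4 * L ^ 4 * (R ^ L) ^ 2 := by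
      calc R ^ L * 4 = 4 * 1 * (R ^ L * 1) := by ring
        _ ≤ 4 * L ^ 4 * (R ^ L * R ^ L) :=
            Nat.mul_le_mul (Nat.mul_le_mul_left _ hL1) (Nat.mul_le_mul_left _ hRL)
        _ = 4 * L ^ 4 * (R ^ L) ^ 2 := by ring
    omega
  have hB : (0 : ℝ) < 3 * R ^ L * L ^ 2 := by
    have hRr : (0 : ℝ) < R := by exact_mod_cast hR1
    have hLr : (0 : ℝ) < L := by exact_mod_cast hL
    positivity
  have ht : (0 : ℝ) < ((m : ℝ) + 1) / 4 := by positivity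
  have h3 := hmcd (G L R D) (3 * R ^ L * L ^ 2) (((m : ℝ) + 1) / 4) hB ht
    fun X v a => hbd L R D X v a hL hR1 hRLm
  have h4 : ((m : ℝ) + 1) / 4 ≤ avg (G L R D) - ((m : ℝ) + 1) / 4 := by
    have := eG4 hsym hmom L R D hL hR hm h1 h2
    linarith
  have h5 : (univ.filter fun X => G L R D X ≤ ((m : ℝ) + 1) / 4) ⊆
      univ.filter fun X => G L R D X ≤ avg (G L R D) - ((m : ℝ) + 1) / 4 := by
    intro X hX
    exact Finset.mem_filter.2 ⟨Finset.mem_univ _, (Finset.mem_filter.1 hX).2.trans h4⟩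
  refine (Nat.cast_le.2 (Finset.card_le_card h5)).trans (h3.trans (le_of_eq ?_))
  congr 2
  have hRr : (0 : ℝ) < R := by exact_mod_cast hR1
  have hLr : (0 : ℝ) < L := by exact_mod_cast hL
  field_simp
  ring

end Pool.Agent.T9h41.DP
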